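import Pool.Agent.Q185.PSD.Red

/-!
# Connected graphs with upper PSD propagation time one are PSD fast joins
-/

set_option linter.unusedSectionVars false

namespace Pool.Agent.Results.MP_6036e3_co.FastJoinTheorem

open Pool.Agent.Q185.PSD

/-! ## Definitions -/

section defs

variable {V : Type*}

/-- PSD colour change rule: when exactly `B` is blue, the blue vertex `u` may force `w`, i.e. for
some connected component `C` of `G - B` the vertex `w` is the only neighbour of `u` in `C`. -/
def CanForce (G : SimpleGraph V) (B : Set V) (u w : V) : Prop :=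
  u ∈ B ∧ ∃ C : (G.induce Bᶜ).ConnectedComponent,
    G.neighborSet u ∩ (Subtype.val '' C.supp) = {w}

/-- The white vertices that some vertex can force when exactly `B` is blue. -/
def newBlue (G : SimpleGraph V) (B : Set V) : Set V := {w | ∃ u, CanForce G B u w}

/-- The sets `B^[i]`: all possible forces of a round are performed simultaneously. -/
def blue (G : SimpleGraph V) (B : Set V) : ℕ → Set V
  | 0 => B
  | i + 1 => blue G B i ∪ newBlue G (blue G B i)

/-- The largest `p` with `B^(p)` nonempty, where `B^(i+1)` is the set of vertices forced in round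
`i + 1`, and `0` if there is none (the supremum of the empty set of naturals is `0`). -/
noncomputable def pt (G : SimpleGraph V) (B : Set V) : ℕ :=
  sSup {p | ∃ i, p = i + 1 ∧ (newBlue G (blue G B i)).Nonempty}

/-- `B` is a PSD forcing set: `B^[p] = V` for the index `p` above. -/
def IsForcing (G : SimpleGraph V) (B : Set V) : Prop := blue G B (pt G B) = Set.univ

/-- `B` is a minimal PSD forcing set: no proper subset is a PSD forcing set. -/
def IsMinForcing (G : SimpleGraph V) (B : Set V) : Prop :=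
  IsForcing G B ∧ ∀ B', B' ⊂ B → ¬ IsForcing G B'

/-- The upper PSD propagation time: maximum of `pt G B` over minimal PSD forcing sets `B`. -/
noncomputable def upperPt (G : SimpleGraph V) : ℕ :=
  sSup {p | ∃ B, IsMinForcing G B ∧ pt G B = p}

/-- The join of the `t` graphs `K_{n i} ∪̇ K_{m i}`: two distinct vertices in different parts are
adjacent, two distinct vertices in the same part `i` are adjacent iff they lie in the same of the
two cliques of that part. -/
def joinGraph (t : ℕ) (n m : Fin t → ℕ) : SimpleGraph (Σ i : Fin t, Fin (n i) ⊕ Fin (m i)) where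
  Adj x y := x ≠ y ∧ (x.1 = y.1 → x.2.isLeft = y.2.isLeft)
  symm := ⟨fun _ _ h => ⟨h.1.symm, fun h' => (h.2 h'.symm).symm⟩⟩
  loopless := ⟨fun _ h => h.1 rfl⟩

/-- PSD fast join: a complete graph on at least two vertices, or a join of `t ≥ 2` graphs
`K_{n i} ∪̇ K_{m i}` with all `n i, m i ≥ 1`. -/
def IsFastJoin (G : SimpleGraph V) : Prop :=
  (∃ n, 2 ≤ n ∧ Nonempty (G ≃g (⊤ : SimpleGraph (Fin n)))) ∨
  ∃ t, 2 ≤ t ∧ ∃ n m : Fin t → ℕ, (∀ i, 1 ≤ n i ∧ 1 ≤ m i) ∧ Nonempty (G ≃g joinGraph t n m)

end defs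

/-! ## The rounds -/

section rounds

variable {V : Type*} {G : SimpleGraph V}

lemma CanForce.adj {B : Set V} {u w : V} (h : CanForce G B u w) : G.Adj u w := by
  obtain ⟨_, C, hC⟩ := h
  have : w ∈ G.neighborSet u ∩ (Subtype.val '' C.supp) := by rw [hC]; rfl
  exact this.1

lemma CanForce.white {B : Set V} {u w : V} (h : CanForce G B u w) : w ∉ B := by
  obtain ⟨_, C, hC⟩ := h
  have : w ∈ G.neighborSet u ∩ (Subtype.val '' C.supp) := by rw [hC]; rfl
  obtain ⟨_, x, _, hx⟩ := this
  rw [← hx]; exact x.2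

lemma newBlue_white {B : Set V} {w : V} (h : w ∈ newBlue G B) : w ∉ B := by
  obtain ⟨u, hu⟩ := h
  exact hu.white

lemma blue_succ (G : SimpleGraph V) (B : Set V) (i : ℕ) :
    blue G B (i + 1) = blue G B i ∪ newBlue G (blue G B i) := rfl

lemma subset_blue (B : Set V) (i : ℕ) : B ⊆ blue G B i := by
  induction i with
  | zero => exact subset_rfl
  | succ i ih => exact ih.trans Set.subset_union_left

lemma bdd [Finite V] (G : SimpleGraph V) (B : Set V) :
    BddAbove {p | ∃ i, p = i + 1 ∧ (newBlue G (blue G B i)).Nonempty} := by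
  have key : ∀ i, (newBlue G (blue G B i)).Nonempty → i + 1 ≤ (blue G B (i + 1)).ncard := by
    intro i
    induction i with
    | zero =>
      intro h
      obtain ⟨w, hw⟩ := h
      have : 0 < (blue G B (0 + 1)).ncard :=
        (Set.ncard_pos (Set.toFinite _)).2 ⟨w, Or.inr hw⟩
      omega
    | succ i ih =>
      intro h
      obtain ⟨w, hw⟩ := h
      by_cases hne : (newBlue G (blue G B i)).Nonempty
      · have h1 := ih hne
        have h2 : blue G B (i + 1) ⊂ blue G B (i + 1 + 1) := by
          refine ⟨Set.subset_union_left, ?_⟩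
          intro hsub
          exact newBlue_white hw (hsub (Or.inr hw))
        have h3 := Set.ncard_lt_ncard h2 (Set.toFinite _)
        omega
      · exfalso
        rw [Set.not_nonempty_iff_eq_empty] at hne
        have h2 : blue G B (i + 1) = blue G B i := by
          rw [blue_succ, hne, Set.union_empty]
        rw [h2, hne] at hw
        exact hw
  refine ⟨Nat.card V, ?_⟩
  rintro p ⟨i, rfl, hi⟩
  refine (key i hi).trans ?_
  rw [← Set.ncard_univ]
  exact Set.ncard_le_ncard (Set.subset_univ _) (Set.toFinite _)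

lemma stable [Finite V] (G : SimpleGraph V) (B : Set V) :
    newBlue G (blue G B (pt G B)) = ∅ := by
  by_contra hne
  rw [← ne_eq, ← Set.nonempty_iff_ne_empty] at hne
  have : pt G B + 1 ≤ pt G B := le_csSup (bdd G B) ⟨pt G B, rfl, hne⟩
  omega

lemma forced_of_pt {B : Set V} (hB : IsForcing G B) (hpt : pt G B ≤ 1) {w : V} (hw : w ∉ B) :
    ∃ u, CanForce G B u w := by
  unfold IsForcing at hB
  interval_cases h : pt G B
  · have : w ∈ blue G B 0 := by rw [hB]; trivial
    exact absurd this hw
  · have : w ∈ blue G B 1 := by rw [hB]; trivial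
    rcases this with h' | h'
    · exact absurd h' hw
    · exact h'

lemma CanForce.mono {B0 B : Set V} (hsub : B0 ⊆ B) {u w : V} (h : CanForce G B0 u w)
    (hw : w ∉ B) : CanForce G B u w := by
  have hadj := h.adj
  obtain ⟨hu, C, hC⟩ := h
  refine ⟨hsub hu, (G.induce Bᶜ).connectedComponentMk ⟨w, hw⟩, ?_⟩
  have hwC : w ∈ G.neighborSet u ∩ (Subtype.val '' C.supp) := by rw [hC]; rfl
  obtain ⟨_, x, hx, hxw⟩ := hwC
  ext z
  constructor
  · rintro ⟨hz1, y, hy, rfl⟩
    rw [← hC]
    refine ⟨hz1, ⟨y.1, fun h' => y.2 (hsub h')⟩, ?_, rfl⟩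
    rw [SimpleGraph.ConnectedComponent.mem_supp_iff] at hx hy ⊢
    rw [← hx]
    have hr : (G.induce Bᶜ).Reachable y ⟨w, hw⟩ := SimpleGraph.ConnectedComponent.exact hy
    have hsub' : Bᶜ ⊆ B0ᶜ := Set.compl_subset_compl.2 hsub
    let φ : (G.induce Bᶜ) →g (G.induce B0ᶜ) :=
      { toFun := fun v => ⟨v.1, hsub' v.2⟩
        map_rel' := fun {a b} hab => hab }
    have hr' := hr.map φ
    have e : φ ⟨w, hw⟩ = x := Subtype.ext hxw.symm
    rw [e] at hr'
    exact SimpleGraph.ConnectedComponent.sound hr'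
  · intro hz
    have hz' : z = w := hz
    subst hz'
    refine ⟨hadj, ⟨z, hw⟩, ?_, rfl⟩
    exact SimpleGraph.ConnectedComponent.connectedComponentMk_mem

/-- the white component of a vertex, as a finset, is connected in the closure sense -/
lemma cn_comp [Fintype V] [DecidableEq V] {B : Set V} (C : (G.induce Bᶜ).ConnectedComponent)
    (F : Finset V) (hF : ∀ x, x ∈ F ↔ x ∈ Subtype.val '' C.supp) : Cn G F := by
  constructor
  · obtain ⟨x, hx⟩ := C.nonempty_supp
    exact ⟨x.1, (hF _).2 ⟨x, hx, rfl⟩⟩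
  · intro P hP hcl x hx
    obtain ⟨z, hz, hPz⟩ := hP
    obtain ⟨z', hz', rfl⟩ := (hF z).1 hz
    obtain ⟨x', hx', rfl⟩ := (hF x).1 hx
    rw [SimpleGraph.ConnectedComponent.mem_supp_iff] at hz' hx'
    have hr : (G.induce Bᶜ).Reachable z' x' :=
      SimpleGraph.ConnectedComponent.exact (hz'.trans hx'.symm)
    obtain ⟨p⟩ := hr
    have key : ∀ (a b : ↑Bᶜ), (G.induce Bᶜ).Walk a b →
        (G.induce Bᶜ).connectedComponentMk a = C → P a.1 → P b.1 := by
      intro a b p
      induction p with
      | nil => intro _ h; exact h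
      | @cons a c b h p ih =>
        intro ha hPa
        have hc : (G.induce Bᶜ).connectedComponentMk c = C := by
          rw [← ha]
          exact (SimpleGraph.ConnectedComponent.sound h.reachable).symm
        apply ih hc
        refine hcl a.1 ?_ c.1 ?_ hPa h
        · exact (hF _).2 ⟨a, ha, rfl⟩
        · exact (hF _).2 ⟨c, hc, rfl⟩
    exact key z' x' p hz' hPz

/-- the complement of a connected set without forts is forcing -/
lemma forcing_compl [Fintype V] [DecidableEq V] {W : Finset V} (hff : Ff G W) :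
    IsForcing G ((W : Set V)ᶜ) := by
  classical
  unfold IsForcing
  by_contra hne
  set B := ((W : Set V)ᶜ) with hBdef
  set B' := blue G B (pt G B) with hB'
  have hstab : newBlue G B' = ∅ := stable G B
  obtain ⟨x, hx⟩ : ∃ x, x ∉ B' := by
    by_contra hcon
    push Not at hcon
    exact hne (Set.eq_univ_of_forall hcon)
  let C := (G.induce B'ᶜ).connectedComponentMk ⟨x, hx⟩
  let F : Finset V := Finset.univ.filter (fun z => z ∈ Subtype.val '' C.supp)
  have hF : ∀ z, z ∈ F ↔ z ∈ Subtype.val '' C.supp := by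
    intro z; simp only [F, Finset.mem_filter, Finset.mem_univ, true_and]
  have hFB : ∀ z ∈ F, z ∉ B' := by
    intro z hz
    obtain ⟨z', _, rfl⟩ := (hF z).1 hz
    exact z'.2
  apply hff F
  · intro z hz
    have h1 := hFB z hz
    by_contra h2
    exact h1 (subset_blue B _ h2)
  · refine ⟨cn_comp C F hF, ?_⟩
    intro u hu s hs hadj
    by_contra hcon
    push Not at hcon
    by_cases huB : u ∈ B'
    · have : s ∈ newBlue G B' := by
        refine ⟨u, huB, C, ?_⟩
        ext z
        constructor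
        · rintro ⟨hz1, hz2⟩
          by_contra hzs
          exact hcon z ((hF z).2 hz2) hzs hz1
        · intro hz
          have hz' : z = s := hz
          subst hz'
          exact ⟨hadj, (hF z).1 hs⟩
      rw [hstab] at this
      exact this
    · obtain ⟨s', hs', rfl⟩ := (hF s).1 hs
      apply hu
      rw [hF]
      refine ⟨⟨u, huB⟩, ?_, rfl⟩
      rw [SimpleGraph.ConnectedComponent.mem_supp_iff] at hs' ⊢
      rw [← hs']
      apply SimpleGraph.ConnectedComponent.sound
      have : (G.induce B'ᶜ).Adj ⟨u, huB⟩ s' := hadj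
      exact this.reachable

/-- the starting point of the structure theory -/
lemma star_of_upper [Fintype V] [DecidableEq V] (h : upperPt G = 1) :
    ∀ W, Cn G W → Ff G W → ∀ s ∈ W, ∃ u, Pv G W s u := by
  intro W hW hff s hs
  have hB : IsForcing G ((W : Set V)ᶜ) := forcing_compl hff
  obtain ⟨B0, hle, hmin⟩ := exists_minimal_le_of_wellFoundedLT (IsForcing G) _ hB
  have hmin' : IsMinForcing G B0 := by
    refine ⟨hmin.1, ?_⟩
    intro B' hB' hf
    exact hB'.2 (hmin.2 hf hB'.1)
  have hpt : pt G B0 ≤ 1 := by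
    rw [← h]
    apply le_csSup
    · have : Set.Finite {p | ∃ B, IsMinForcing G B ∧ pt G B = p} := by
        have h1 : {p | ∃ B, IsMinForcing G B ∧ pt G B = p} ⊆ Set.range (pt G) := by
          rintro p ⟨B, _, rfl⟩
          exact ⟨B, rfl⟩
        exact (Set.finite_range (pt G)).subset h1
      exact this.bddAbove
    · exact ⟨B0, hmin', rfl⟩
  have hsB : s ∉ (W : Set V)ᶜ := by simpa using hs
  have hsB0 : s ∉ B0 := fun h' => hsB (hle h')
  obtain ⟨u, hu⟩ := forced_of_pt hmin'.1 hpt hsB0
  have hu' := hu.mono hle hsB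
  have hadj := hu'.adj
  obtain ⟨huW, C, hC⟩ := hu'
  refine ⟨u, by simpa using huW, hadj, ?_⟩
  have hsC : s ∈ Subtype.val '' C.supp := by
    have : s ∈ G.neighborSet u ∩ (Subtype.val '' C.supp) := by rw [hC]; rfl
    exact this.2
  have hall : ∀ x ∈ W, x ∈ Subtype.val '' C.supp := by
    apply hW.2 (fun x => x ∈ Subtype.val '' C.supp) ⟨s, hs, hsC⟩
    intro a _ b hb ha hab
    obtain ⟨a', ha', rfl⟩ := ha
    have hbB : b ∈ ((W : Set V)ᶜ)ᶜ := by simpa using hb
    refine ⟨⟨b, hbB⟩, ?_, rfl⟩
    rw [SimpleGraph.ConnectedComponent.mem_supp_iff] at ha' ⊢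
    rw [← ha']
    apply SimpleGraph.ConnectedComponent.sound
    have : (G.induce ((W : Set V)ᶜ)ᶜ).Adj ⟨b, hbB⟩ a' := hab.symm
    exact this.reachable
  intro s' hs' hadj'
  have : s' ∈ G.neighborSet u ∩ (Subtype.val '' C.supp) := ⟨hadj', hall s' hs'⟩
  rw [hC] at this
  exact this

lemma exists_adj_of_upper [Finite V] (h : upperPt G = 1) : ∃ u w, G.Adj u w := by
  have hne : {p | ∃ B, IsMinForcing G B ∧ pt G B = p}.Nonempty := by
    by_contra hcon
    rw [Set.not_nonempty_iff_eq_empty] at hcon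
    unfold upperPt at h
    rw [hcon] at h
    simp at h
  have hfin : Set.Finite {p | ∃ B, IsMinForcing G B ∧ pt G B = p} := by
    have h1 : {p | ∃ B, IsMinForcing G B ∧ pt G B = p} ⊆ Set.range (pt G) := by
      rintro p ⟨B, _, rfl⟩
      exact ⟨B, rfl⟩
    exact (Set.finite_range (pt G)).subset h1
  have hmem := Nat.sSup_mem hne hfin.bddAbove
  change upperPt G ∈ _ at hmem
  rw [h] at hmem
  obtain ⟨B, _, hB⟩ := hmem
  have hne2 : {p | ∃ i, p = i + 1 ∧ (newBlue G (blue G B i)).Nonempty}.Nonempty := by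
    by_contra hcon
    rw [Set.not_nonempty_iff_eq_empty] at hcon
    unfold pt at hB
    rw [hcon] at hB
    simp at hB
  obtain ⟨_, i, _, w, u, hu⟩ := hne2
  exact ⟨u, w, hu.adj⟩

end rounds

/-! ## From a colouring to an explicit isomorphism -/

lemma iso_of_colour {V : Type*} [Fintype V] (G : SimpleGraph V) (t : ℕ) (c : V → Fin t × Bool)
    (hc : Function.Surjective c)
    (hadj : ∀ u v, G.Adj u v ↔ (u ≠ v ∧ ¬ ((c u).1 = (c v).1 ∧ (c u).2 ≠ (c v).2))) :
    ∃ n m : Fin t → ℕ, (∀ i, 1 ≤ n i ∧ 1 ≤ m i) ∧ Nonempty (G ≃g joinGraph t n m) := by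
  classical
  let n : Fin t → ℕ := fun i => Fintype.card {v // c v = (i, true)}
  let m : Fin t → ℕ := fun i => Fintype.card {v // c v = (i, false)}
  refine ⟨n, m, ?_, ?_⟩
  · intro i
    constructor
    · obtain ⟨v, hv⟩ := hc (i, true)
      exact Fintype.card_pos_iff.2 ⟨⟨v, hv⟩⟩
    · obtain ⟨v, hv⟩ := hc (i, false)
      exact Fintype.card_pos_iff.2 ⟨⟨v, hv⟩⟩
  let e1 : ∀ i, {v // c v = (i, true)} ≃ Fin (n i) := fun i => Fintype.equivFin _
  let e2 : ∀ i, {v // c v = (i, false)} ≃ Fin (m i) := fun i => Fintype.equivFin _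
  let ψ : (Σ i : Fin t, Fin (n i) ⊕ Fin (m i)) → V := fun x =>
    Sum.elim (fun k => ((e1 x.1).symm k).1) (fun k => ((e2 x.1).symm k).1) x.2
  have hψ : ∀ x, c (ψ x) = (x.1, x.2.isLeft) := by
    rintro ⟨i, k | k⟩
    · exact ((e1 i).symm k).2
    · exact ((e2 i).symm k).2
  have hinj : Function.Injective ψ := by
    rintro ⟨i, k | k⟩ ⟨j, l | l⟩ h
    · have h1 := hψ ⟨i, Sum.inl k⟩
      rw [h, hψ] at h1
      have hij : j = i := congrArg Prod.fst h1
      subst hij
      have h2 : (e1 j).symm k = (e1 j).symm l := Subtype.ext h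
      rw [(e1 j).symm.injective h2]
    · have h1 := hψ ⟨i, Sum.inl k⟩
      rw [h, hψ] at h1
      have := congrArg Prod.snd h1
      simp at this
    · have h1 := hψ ⟨i, Sum.inr k⟩
      rw [h, hψ] at h1
      have := congrArg Prod.snd h1
      simp at this
    · have h1 := hψ ⟨i, Sum.inr k⟩
      rw [h, hψ] at h1
      have hij : j = i := congrArg Prod.fst h1
      subst hij
      have h2 : (e2 j).symm k = (e2 j).symm l := Subtype.ext h
      rw [(e2 j).symm.injective h2]
  have hsurj : Function.Surjective ψ := by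
    intro v
    rcases hcv : c v with ⟨i, b⟩
    cases b
    · refine ⟨⟨i, Sum.inr (e2 i ⟨v, hcv⟩)⟩, ?_⟩
      simp [ψ]
    · refine ⟨⟨i, Sum.inl (e1 i ⟨v, hcv⟩)⟩, ?_⟩
      simp [ψ]
  refine ⟨RelIso.symm ⟨Equiv.ofBijective ψ ⟨hinj, hsurj⟩, ?_⟩⟩
  intro x y
  change G.Adj (ψ x) (ψ y) ↔ (x ≠ y ∧ (x.1 = y.1 → x.2.isLeft = y.2.isLeft))
  rw [hadj, hψ, hψ, hinj.ne_iff]
  simp only [ne_eq, not_and, not_not]

/-- **Theorem.** A connected graph whose upper PSD propagation time is one is a PSD fast join. -/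
theorem result {V : Type*} [Finite V] (G : SimpleGraph V) (hconn : G.Connected)
    (h : upperPt G = 1) : IsFastJoin G := by
  classical
  have : Fintype V := Fintype.ofFinite V
  have hcn : Cn G Finset.univ := by
    have := hconn.nonempty
    refine ⟨Finset.univ_nonempty, ?_⟩
    intro P hP hcl x _
    obtain ⟨z, _, hz⟩ := hP
    have key : ∀ a b : V, G.Walk a b → P a → P b := by
      intro a b p
      induction p with
      | nil => exact id
      | @cons a b c hab p ih =>
        intro ha
        exact ih (hcl a (Finset.mem_univ _) b (Finset.mem_univ _) ha hab)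
    obtain ⟨p⟩ := hconn.preconnected z x
    exact key z x p hz
  rcases structure_thm G hcn (star_of_upper h) with hcomp | ⟨t, ht, c, hc, hadj⟩
  · left
    refine ⟨Fintype.card V, ?_, ?_⟩
    · obtain ⟨u, w, huw⟩ := exists_adj_of_upper h
      exact Fintype.one_lt_card_iff.2 ⟨u, w, huw.ne⟩
    · refine ⟨⟨Fintype.equivFin V, ?_⟩⟩
      intro a b
      simp only [SimpleGraph.top_adj, ne_eq, EmbeddingLike.apply_eq_iff_eq]
      exact ⟨fun hab => hcomp a b hab, fun hab => hab.ne⟩
  · right
    obtain ⟨n, m, hnm, hiso⟩ := iso_of_colour G t c hc hadj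
    exact ⟨t, ht, n, m, hnm, hiso⟩

end Pool.Agent.Results.MP_6036e3_co.FastJoinTheorem
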